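import Pool.Agent.U832.AM.PowE

/-!
# The Alperin–McKay–Navarro conjecture: equivariant maps with small fibres in both directions suffice

`O` is a valuation subring of `ℂ` whose maximal ideal contains `p`; it defines the `p`-blocks of finite groups.
`Dat` (`Pool/Agent/Q259/BW/Main.lean`) is a group `G` with a subgroup `D` and sets `B`, `b` of functions on `G` and on
`N_G(D)`; `X.IsBrauer p O` says that `G` is finite, `B` is a block of `G` with defect group `D` and `b` is its Brauer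
correspondent; `X.ht0 p` and `X.ht0' p` are the sets of the characters of height zero in `B` and `b`. `HG p G` is
Navarro's group, `gal σ B` the Galois conjugate of `B`, and `AMN p X` the conjecture for the block
(`Pool/Agent/N19/RB/DefB.lean`).

Proof. The products of `k` characters in `B` form a block of `G ^ k` with defect group `D ^ k`, whose Brauer
correspondent consists of the products of `k` characters in `b`. The number of its characters of height zero fixed by
a group `Γ` is the `k`-th power of the number for `B`. Navarro's group for `G ^ k` is smaller than that for `G`, but all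
automorphisms of the field of the `|G|`-th roots of unity in `Γ` are induced by members of it, and if `H / Γ` is a `p`-group
(cyclic for odd `p`) then the same holds for the group of these members. So a bound of the quotient of the two numbers
by `K |G| ^ ε` gives `|Irr₀(B)^Γ| ≤ |Irr₀(b)^Γ|`. A map with fibres of at most `c` elements which commutes with `Γ` maps
fixed characters to fixed characters and gives such a bound. Galois-stable blocks and these `Γ` suffice by the starting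
theorem on Galois-stable blocks.
-/

set_option autoImplicit false

noncomputable section

namespace Pool.Agent.Results.MP_7f1e7e_al.ApproximateBijections

open Pool.Agent.Q259.BW Pool.Agent.Q288.MB Pool.Agent.N19.RB Pool.Agent.U832.AM.PD

/-- The number of the characters of height zero in `B` fixed by `Γ`. -/
def fixed (p : ℕ) (X : Dat) (Γ : Subgroup (ℂ ≃+* ℂ)) : ℕ :=
  Nat.card (Fx (Γ : Set (ℂ ≃+* ℂ)) (X.ht0 p))

/-- The number of the characters of height zero in `b` fixed by `Γ`. -/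
def fixed' (p : ℕ) (X : Dat) (Γ : Subgroup (ℂ ≃+* ℂ)) : ℕ :=
  Nat.card (Fx (Γ : Set (ℂ ≃+* ℂ)) (X.ht0' p))

/-- `B` is equal to all its Galois conjugates. -/
def Stable (X : Dat) : Prop := ∀ σ : ℂ ≃+* ℂ, gal σ X.B = X.B

/-- The members of Navarro's group which leave `B` invariant. -/
def HB (p : ℕ) (X : Dat) : Set (ℂ ≃+* ℂ) := {σ | σ ∈ HG p X.G ∧ gal σ X.B = X.B}

/-- `f ≤ K |G| ^ ε g` for all `p`-blocks with defect groups in `C` and all groups `Γ` with the property `P`, for every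
`ε > 0` and some `K = K(ε)`. -/
def WeakLE (p : ℕ) (O : ValuationSubring ℂ) (C : (D : Type) → Group D → Prop)
    (P : Dat → Subgroup (ℂ ≃+* ℂ) → Prop) (f g : Dat → Subgroup (ℂ ≃+* ℂ) → ℕ) : Prop :=
  ∀ ε : ℝ, 0 < ε → ∃ K : ℝ, ∀ X : Dat, X.IsBrauer p O → C X.D inferInstance →
    ∀ Γ : Subgroup (ℂ ≃+* ℂ), P X Γ → (f X Γ : ℝ) ≤ K * (Nat.card X.G : ℝ) ^ ε * g X Γ

/-- There are maps from `Irr₀(B)` to `Irr₀(b)` and from `Irr₀(b)` to `Irr₀(B)` commuting with all `σ ∈ Γ`, with at most `c`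
elements in each fibre. -/
def SmallMaps (p : ℕ) (X : Dat) (Γ : Set (ℂ ≃+* ℂ)) (c : ℝ) : Prop :=
  SmallMap Γ c (X.ht0 p) (X.ht0' p) ∧ SmallMap Γ c (X.ht0' p) (X.ht0 p)

section aux

variable {p : ℕ} [hp : Fact p.Prime] {O : ValuationSubring ℂ}

theorem one_le (X : Dat) (hX : X.IsBrauer p O) {ε : ℝ} (hε : 0 < ε) :
    (1 : ℝ) ≤ 1 * (Nat.card X.G : ℝ) ^ ε := by
  have := hX.fin
  have h1 : (1 : ℝ) ≤ Nat.card X.G := by exact_mod_cast Nat.card_pos
  rw [one_mul]
  exact Real.one_le_rpow h1 hε.le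

theorem weak_of_le {C : (D : Type) → Group D → Prop} {P : Dat → Subgroup (ℂ ≃+* ℂ) → Prop}
    {f g : Dat → Subgroup (ℂ ≃+* ℂ) → ℕ}
    (h : ∀ X : Dat, X.IsBrauer p O → C X.D inferInstance → ∀ Γ : Subgroup (ℂ ≃+* ℂ), P X Γ →
      f X Γ ≤ g X Γ) : WeakLE p O C P f g := by
  intro ε hε
  refine ⟨1, fun X hX hD Γ hΓ => ?_⟩
  have h1 : (f X Γ : ℝ) ≤ g X Γ := by exact_mod_cast h X hX hD Γ hΓ
  have h2 := one_le X hX hε
  have h3 : (0 : ℝ) ≤ g X Γ := Nat.cast_nonneg _
  nlinarith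

theorem fin0 {X : Dat} (hX : X.IsBrauer p O) : (X.ht0 p).Finite := by
  have := hX.fin
  exact finite_of_irr (ht0_irr hX)

theorem fin0' {X : Dat} (hX : X.IsBrauer p O) : (X.ht0' p).Finite := by
  have := hX.fin
  exact finite_of_irr (ht0'_irr hX)

theorem amn_small {X : Dat} (hX : X.IsBrauer p O) (h : AMN p X) {ε : ℝ} (hε : 0 < ε) :
    SmallMaps p X (HB p X) (1 * (Nat.card X.G : ℝ) ^ ε) :=
  ⟨small_of_bij h (one_le X hX hε), small_of_bij (bij_symm h) (one_le X hX hε)⟩

end aux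

/-- Let `p` be any prime.
(1) Let `C` be a class of groups closed under isomorphisms, finite powers and direct products with elementary abelian
`p`-groups. The following are equivalent: (a) the Alperin–McKay–Navarro conjecture holds for all `p`-blocks with defect
groups in `C`; (b) for every `ε > 0` there is `K` such that for all those `p`-blocks `B` which are equal to all their Galois
conjugates there are maps `Irr₀(B) → Irr₀(b)` and `Irr₀(b) → Irr₀(B)` commuting with Navarro's group all of whose fibres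
have at most `K |G| ^ ε` elements; (c) for these `B` and all subgroups `L` of Navarro's group `H` such that `H / L` is a
`p`-group, cyclic for odd `p`, the numbers of the fixed characters satisfy `|Irr₀(B)^L| ≤ K |G| ^ ε |Irr₀(b)^L|` and
`|Irr₀(b)^L| ≤ K |G| ^ ε |Irr₀(B)^L|`, for every `ε > 0` and some `K`.
(2) Let `C` be a class of groups closed under isomorphisms and finite powers, and consider all pairs of a `p`-block `B`
with defect group in `C` and a subgroup `Γ` of `H_B`. `|Irr₀(B)^Γ| ≤ |Irr₀(b)^Γ|` holds for all pairs if and only if for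
every `ε > 0` there is `K` with `|Irr₀(B)^Γ| ≤ K |G| ^ ε |Irr₀(b)^Γ|` for all pairs; the same with `B` and `b` exchanged;
and the conjecture holds for all these `B` if and only if for every `ε > 0` there is `K` such that for all these `B` there
are maps in both directions commuting with `H_B` with at most `K |G| ^ ε` elements in each fibre. -/
theorem result (p : ℕ) [Fact p.Prime] (O : ValuationSubring ℂ) (hpO : (p : ℂ) ∈ O.nonunits) :
    -- (1)
    (∀ C : (D : Type) → Group D → Prop, ElClosed p C →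
      ((∀ X : Dat, X.IsBrauer p O → C X.D inferInstance → AMN p X) ↔
        ∀ ε : ℝ, 0 < ε → ∃ K : ℝ, ∀ X : Dat, X.IsBrauer p O → C X.D inferInstance → Stable X →
          SmallMaps p X (HG p X.G) (K * (Nat.card X.G : ℝ) ^ ε)) ∧
      ((∀ X : Dat, X.IsBrauer p O → C X.D inferInstance → AMN p X) ↔
        WeakLE p O C (fun X L => Stable X ∧ PIndex p X.G L) (fixed p) (fixed' p) ∧
          WeakLE p O C (fun X L => Stable X ∧ PIndex p X.G L) (fixed' p) (fixed p))) ∧
    -- (2)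
    ∀ C : (D : Type) → Group D → Prop, PowClosed C →
      ((∀ X : Dat, X.IsBrauer p O → C X.D inferInstance → ∀ Γ : Subgroup (ℂ ≃+* ℂ),
          (Γ : Set (ℂ ≃+* ℂ)) ⊆ HB p X → fixed p X Γ ≤ fixed' p X Γ) ↔
        WeakLE p O C (fun X Γ => (Γ : Set (ℂ ≃+* ℂ)) ⊆ HB p X) (fixed p) (fixed' p)) ∧
      ((∀ X : Dat, X.IsBrauer p O → C X.D inferInstance → ∀ Γ : Subgroup (ℂ ≃+* ℂ),
          (Γ : Set (ℂ ≃+* ℂ)) ⊆ HB p X → fixed' p X Γ ≤ fixed p X Γ) ↔
        WeakLE p O C (fun X Γ => (Γ : Set (ℂ ≃+* ℂ)) ⊆ HB p X) (fixed' p) (fixed p)) ∧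
      ((∀ X : Dat, X.IsBrauer p O → C X.D inferInstance → AMN p X) ↔
        ∀ ε : ℝ, 0 < ε → ∃ K : ℝ, ∀ X : Dat, X.IsBrauer p O → C X.D inferInstance →
          SmallMaps p X (HB p X) (K * (Nat.card X.G : ℝ) ^ ε)) := by
  -- the power trick for the two kinds of pairs
  have gS : ∀ (C : (D : Type) → Group D → Prop), PowClosed C → ∀ f g : Dat → Subgroup (ℂ ≃+* ℂ) → ℕ,
      (∀ X : Dat, X.IsBrauer p O → ∀ Γ Γ' : Subgroup (ℂ ≃+* ℂ), ∀ k : ℕ,
        fixed p (pw k X) Γ' = fixed p X Γ ^ k → fixed' p (pw k X) Γ' = fixed' p X Γ ^ k →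
        f (pw k X) Γ' = f X Γ ^ k ∧ g (pw k X) Γ' = g X Γ ^ k) →
      WeakLE p O C (fun X L => Stable X ∧ PIndex p X.G L) f g →
      ∀ X : Dat, X.IsBrauer p O → C X.D inferInstance → Stable X → ∀ L : Subgroup (ℂ ≃+* ℂ),
        PIndex p X.G L → f X L ≤ g X L := by
    intro C hC f g hfg hw X hX hD hS L hL
    refine weak_le hpO hC (fun X L => Stable X ∧ PIndex p X.G L)
      (fun X Γ h δ hδ => ⟨h.2.le hδ, h.1 δ⟩) ?_ f g hfg hw X hX hD L ⟨hS, hL⟩
    intro X hX Γ h k hk Γ' h1 h2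
    exact ⟨fun σ => gal_pw hX (h.1 σ) k, h2 h.2⟩
  have gA : ∀ (C : (D : Type) → Group D → Prop), PowClosed C → ∀ f g : Dat → Subgroup (ℂ ≃+* ℂ) → ℕ,
      (∀ X : Dat, X.IsBrauer p O → ∀ Γ Γ' : Subgroup (ℂ ≃+* ℂ), ∀ k : ℕ,
        fixed p (pw k X) Γ' = fixed p X Γ ^ k → fixed' p (pw k X) Γ' = fixed' p X Γ ^ k →
        f (pw k X) Γ' = f X Γ ^ k ∧ g (pw k X) Γ' = g X Γ ^ k) →
      WeakLE p O C (fun X Γ => (Γ : Set (ℂ ≃+* ℂ)) ⊆ HB p X) f g →
      ∀ X : Dat, X.IsBrauer p O → C X.D inferInstance → ∀ Γ : Subgroup (ℂ ≃+* ℂ),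
        (Γ : Set (ℂ ≃+* ℂ)) ⊆ HB p X → f X Γ ≤ g X Γ := by
    intro C hC f g hfg hw X hX hD Γ hΓ
    refine weak_le hpO hC (fun X Γ => (Γ : Set (ℂ ≃+* ℂ)) ⊆ HB p X)
      (fun X Γ h δ hδ => h hδ) ?_ f g hfg hw X hX hD Γ hΓ
    intro X hX Γ h k hk Γ' h1 h2
    exact fun κ hκ => h1 κ hκ
  have e12 : ∀ X : Dat, X.IsBrauer p O → ∀ Γ Γ' : Subgroup (ℂ ≃+* ℂ), ∀ k : ℕ,
      fixed p (pw k X) Γ' = fixed p X Γ ^ k → fixed' p (pw k X) Γ' = fixed' p X Γ ^ k →
      fixed p (pw k X) Γ' = fixed p X Γ ^ k ∧ fixed' p (pw k X) Γ' = fixed' p X Γ ^ k :=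
    fun _ _ _ _ _ h1 h2 => ⟨h1, h2⟩
  have e21 : ∀ X : Dat, X.IsBrauer p O → ∀ Γ Γ' : Subgroup (ℂ ≃+* ℂ), ∀ k : ℕ,
      fixed p (pw k X) Γ' = fixed p X Γ ^ k → fixed' p (pw k X) Γ' = fixed' p X Γ ^ k →
      fixed' p (pw k X) Γ' = fixed' p X Γ ^ k ∧ fixed p (pw k X) Γ' = fixed p X Γ ^ k :=
    fun _ _ _ _ _ h1 h2 => ⟨h2, h1⟩
  constructor
  · intro C hC
    have ca : WeakLE p O C (fun X L => Stable X ∧ PIndex p X.G L) (fixed p) (fixed' p) ∧
        WeakLE p O C (fun X L => Stable X ∧ PIndex p X.G L) (fixed' p) (fixed p) →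
        ∀ X : Dat, X.IsBrauer p O → C X.D inferInstance → AMN p X := by
      rintro ⟨w1, w2⟩ X hX hD
      refine amn_reduction hpO hC (fun X hX hD hS L hL => ?_) X hX hD
      exact le_antisymm (gS C hC.1 _ _ e12 w1 X hX hD hS L hL) (gS C hC.1 _ _ e21 w2 X hX hD hS L hL)
    have ac : (∀ X : Dat, X.IsBrauer p O → C X.D inferInstance → AMN p X) →
        WeakLE p O C (fun X L => Stable X ∧ PIndex p X.G L) (fixed p) (fixed' p) ∧
        WeakLE p O C (fun X L => Stable X ∧ PIndex p X.G L) (fixed' p) (fixed p) := by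
      intro h
      have key : ∀ X : Dat, X.IsBrauer p O → C X.D inferInstance → ∀ L : Subgroup (ℂ ≃+* ℂ),
          (Stable X ∧ PIndex p X.G L) → fixed p X L = fixed' p X L := fun X hX hD L hL =>
        num_of_bij (h X hX hD) fun σ hσ => ⟨hL.2.le hσ, hL.1 σ⟩
      exact ⟨weak_of_le fun X hX hD L hL => (key X hX hD L hL).le,
        weak_of_le fun X hX hD L hL => (key X hX hD L hL).ge⟩
    refine ⟨⟨fun h ε hε => ⟨1, fun X hX hD hS => ?_⟩, fun h => ca ?_⟩, ac, ca⟩
    · have h1 : HB p X = HG p X.G := by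
        ext σ
        exact ⟨fun h2 => h2.1, fun h2 => ⟨h2, hS σ⟩⟩
      rw [← h1]
      exact amn_small hX (h X hX hD) hε
    · constructor
      · intro ε hε
        obtain ⟨K, hK⟩ := h ε hε
        exact ⟨K, fun X hX hD L hL =>
          card_le_of_small (fin0 hX) (fin0' hX) (hK X hX hD hL.1).1 hL.2.le⟩
      · intro ε hε
        obtain ⟨K, hK⟩ := h ε hε
        exact ⟨K, fun X hX hD L hL =>
          card_le_of_small (fin0' hX) (fin0 hX) (hK X hX hD hL.1).2 hL.2.le⟩
  · intro C hC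
    refine ⟨⟨weak_of_le, gA C hC _ _ e12⟩, ⟨weak_of_le, gA C hC _ _ e21⟩,
      fun h ε hε => ⟨1, fun X hX hD => amn_small hX (h X hX hD) hε⟩, fun h X hX hD => ?_⟩
    rw [amn_iff hpO X hX]
    intro Γ hΓ
    refine le_antisymm (gA C hC _ _ e12 ?_ X hX hD Γ hΓ) (gA C hC _ _ e21 ?_ X hX hD Γ hΓ)
    · intro ε hε
      obtain ⟨K, hK⟩ := h ε hε
      exact ⟨K, fun X hX hD L hL => card_le_of_small (fin0 hX) (fin0' hX) (hK X hX hD).1 hL⟩
    · intro ε hε
      obtain ⟨K, hK⟩ := h ε hε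
      exact ⟨K, fun X hX hD L hL => card_le_of_small (fin0' hX) (fin0 hX) (hK X hX hD).2 hL⟩

end Pool.Agent.Results.MP_7f1e7e_al.ApproximateBijections
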