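import Pool.Agent.U920.GB.Lev

/-!
# The Alperin–McKay–Navarro conjecture: one congruence for each group of field automorphisms decides

`O` is a valuation subring of `ℂ` whose maximal ideal contains the prime `p` (`p = 2` is allowed); it
defines the `p`-blocks of finite groups, their defect groups and Brauer correspondents
(`Pool.Agent.H254R3.IN`). `Dat` (`Pool/Agent/Q259/BW/Main.lean`) is a group `G` with a subgroup `D` and
sets `B`, `b` of functions on `G` and on `N_G(D)`; `X.IsBrauer p O` says that `G` is finite, `B` is a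
block of `G` with defect group `D` and `b` is its Brauer correspondent; `X.ht0 p`, `X.ht0' p` are
`Irr₀(B)`, `Irr₀(b)`. `HG p G` is Navarro's group as a group of automorphisms of `ℂ` and `AMN p X` the
assertion of the conjecture for `B` (`Pool/Agent/N19/RB/DefB.lean`), `gal σ B` is the Galois conjugate
of `B`, `EquivBij Γ A A'` says that there is a bijection from `A` to `A'` commuting with all `σ ∈ Γ`,
and `Fx Γ A` is the set of the members of `A` fixed by `Γ`.

Proof. Let `q ≠ p` be a prime and `S` a group of order `q`. Let `B` be a block with defect group `D ≠ 1`.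
The characters of `G ≀ S` above products of `q` characters in `B` form a block, with defect group `D^q`:
for an extension `χ` of `θ ⊗ ⋯ ⊗ θ` the central character is, outside of the base group, a multiple of
`(|G| / θ(1))^(q-1)`, and `|G| / θ(1)` is in the maximal ideal, since `B` does not have defect zero; so
all these characters have the same central character modulo the maximal ideal, and the idempotent is
the product of those of `B`. The same holds for `N_G(D) ≀ S = N(D^q)`, and the resulting block is the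
Brauer correspondent. The characters of height zero are those above products of characters of height
zero. If the orders of the elements of `Γ` on the two sets are prime to `q`, the number `x` of the
characters in `Irr₀(B)` fixed by `Γ` and that for the block of the wreath product, `x'`, satisfy
`q x' + x = x^q + q c x`, where `c` is the number of the linear characters of `S` fixed by `Γ`. So if `q`
divides `x - y` then `q^(t+1)` divides `x - y` if and only if `q^t` divides `x' - y'`. Navarro's group of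
the wreath product is smaller than that of `G`; but all automorphisms of the field of the `|G|`-th roots
of unity which belong to `Γ` are extended by members of it, and `Γ` is replaced by the group of all
these extensions.
-/

set_option autoImplicit false

noncomputable section

namespace Pool.Agent.Results.MP_7f1e7e_al.CongruenceModQ

open Pool.Agent.Q259.BW (Dat Fx EquivBij)
open Pool.Agent.Q288.MB (gal)
open Pool.Agent.N19.RB (HG AMN PIndex ElClosed)

/-- `Γ` is a subgroup of Navarro's group `H_B`. -/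
def InH (p : ℕ) (X : Dat) (Γ : Subgroup (ℂ ≃+* ℂ)) : Prop :=
  ∀ σ ∈ Γ, σ ∈ HG p X.G ∧ gal σ X.B = X.B

/-- The number of the characters in `Irr₀(B)` fixed by `Γ`. -/
def num (p : ℕ) (Γ : Subgroup (ℂ ≃+* ℂ)) (X : Dat) : ℕ :=
  Nat.card (Fx (Γ : Set (ℂ ≃+* ℂ)) (X.ht0 p))

/-- The number of the characters in `Irr₀(b)` fixed by `Γ`. -/
def num' (p : ℕ) (Γ : Subgroup (ℂ ≃+* ℂ)) (X : Dat) : ℕ :=
  Nat.card (Fx (Γ : Set (ℂ ≃+* ℂ)) (X.ht0' p))

/-- For every `σ ∈ Γ` there is an exponent `m` with the property `E` such that `σ ^ m` fixes all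
characters in `A`. -/
def Acts (E : ℕ → Prop) (Γ : Subgroup (ℂ ≃+* ℂ)) {G : Type} (A : Set (G → ℂ)) : Prop :=
  ∀ σ ∈ Γ, ∃ m : ℕ, E m ∧ ∀ χ ∈ A, ∀ g, (σ ^ m) (χ g) = χ g

/-- The same for `Irr₀(B)` and for `Irr₀(b)`. -/
def ActsBoth (p : ℕ) (E : ℕ → Prop) (Γ : Subgroup (ℂ ≃+* ℂ)) (X : Dat) : Prop :=
  Acts E Γ (X.ht0 p) ∧ Acts E Γ (X.ht0' p)

/-- The prime `q` does not divide the orders of the permutations of `Irr₀(B)` and of `Irr₀(b)` given
by the elements of `Γ`. -/
def PrimeTo (p q : ℕ) (Γ : Subgroup (ℂ ≃+* ℂ)) (X : Dat) : Prop :=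
  ActsBoth p (fun m => ¬ q ∣ m) Γ X

/-- `q` is the least element of `𝒬` with `PrimeTo p q Γ X`. -/
def IsLeastPrimeTo (𝒬 : Set ℕ) (p q : ℕ) (Γ : Subgroup (ℂ ≃+* ℂ)) (X : Dat) : Prop :=
  q ∈ 𝒬 ∧ PrimeTo p q Γ X ∧ ∀ r ∈ 𝒬, r < q → ¬ PrimeTo p r Γ X

/-- The class `C` of groups is closed under isomorphisms and `D ↦ D ^ n`. -/
def Closed (n : ℕ) (C : (D : Type) → Group D → Prop) : Prop :=
  (∀ (D E : Type) [i : Group D] [j : Group E], Nonempty (D ≃* E) → C D i → C E j) ∧
    ∀ (D : Type) [i : Group D], C D i → C (Fin n → D) inferInstance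

/-- The action of `S` on `G ^ S` by permutation of the factors. -/
def shift (G S : Type) [Group G] [Group S] : S →* MulAut (S → G) :=
  Pool.Agent.K3h3.MK.rAct G S

theorem shift_apply (G S : Type) [Group G] [Group S] (s : S) (g : S → G) (i : S) :
    shift G S s g i = g (s⁻¹ * i) := rfl

/-- The regular wreath product of `G` with a cyclic group of order `q`. -/
abbrev Wreath (q : ℕ) (G : Type) [Group G] : Type :=
  (Multiplicative (ZMod q) → G) ⋊[shift G (Multiplicative (ZMod q))] Multiplicative (ZMod q)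

/-- The class `𝒢` of groups is closed under isomorphisms and, for finite groups, under regular wreath
products with cyclic groups of order `q`. -/
def WrClosed (q : ℕ) (𝒢 : (G : Type) → Group G → Prop) : Prop :=
  (∀ (G H : Type) [i : Group G] [j : Group H], Nonempty (G ≃* H) → 𝒢 G i → 𝒢 H j) ∧
    ∀ (G : Type) [i : Group G] [Finite G], 𝒢 G i → 𝒢 (Wreath q G) inferInstance

section bridge

open Pool.Agent.Q259.BW Pool.Agent.U920.GB

variable {p : ℕ} [hp : Fact p.Prime] {O : ValuationSubring ℂ}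

theorem equiv_iff (hpO : (p : ℂ) ∈ O.nonunits) {X : Dat} (hX : X.IsBrauer p O)
    {Γ : Subgroup (ℂ ≃+* ℂ)} (hΓ : InH p X Γ) :
    EquivBij (Γ : Set (ℂ ≃+* ℂ)) (X.ht0 p) (X.ht0' p) ↔ ∀ Δ ≤ Γ, num p Δ X = num' p Δ X := by
  have := hX.fin
  have := Fintype.ofFinite X.G
  constructor
  · intro h Δ hΔ
    exact num_of_bij h hΔ
  · intro h
    exact bij_of_num (finite_of_irr (ht0_irr hX)) (finite_of_irr (ht0'_irr hX))
      (stable_ht0 (stable_of_gal fun σ hσ => (hΓ σ hσ).2))
      (stable_ht0 (stable_of_gal fun σ hσ =>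
        Pool.Agent.N19.RB.gal_b hpO hX.block hX.brauer (hΓ σ hσ).2)) h

end bridge

open Pool.Agent.U920.GB in
/-- **The Alperin–McKay–Navarro conjecture: one congruence for each group of field automorphisms
decides.** Let `p` be a prime.

(1) Let `q ≠ p` be a prime, `E` a set of exponents prime to `q` such that `(q - 1) m` is in `E` for all
`m` in `E` (for example all numbers prime to `q`), `𝒢` a class of groups closed under isomorphisms and
under wreath products with cyclic groups of order `q` and `C` a class of groups closed under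
isomorphisms and `D ↦ D ^ q`. (For example `𝒢` can be the class of all groups, or of the groups all of
whose nonabelian composition factors are in a given set, and `C` that of all groups, or of all abelian
groups.) Consider all pairs of a `p`-block `B`, with defect group in `C`, of a group in `𝒢` and a
subgroup `Γ` of `H_B` such that every `σ ∈ Γ` has powers with exponents in `E` fixing all characters in
`Irr₀(B)` and in `Irr₀(b)`. There are bijections `Irr₀(B) → Irr₀(b)` commuting with `Γ` for all these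
pairs, if and only if the numbers of the characters fixed by `Γ` in `Irr₀(B)` and in `Irr₀(b)` are
congruent modulo `q` for all these pairs.

(2) For one pair: let `q`, `E` be as in (1), let `B` be a block of `G` with the defect group `D ≠ 1` and
let `Γ` be as in (1). There are blocks `B_j` of the iterated wreath products `G_j = G_{j-1} ≀ C_q` with
defect groups isomorphic to `D ^ (q ^ j)` and groups `Γ_j` as in (1), `j = 0, 1, …`, starting with `B`
and `Γ`, such that for all `a` the number `q ^ a` divides the difference of the numbers of fixed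
characters for `B` and `b`, if and only if these numbers are congruent modulo `q` for `B_j` and `b_j`,
`Γ_j`, for all `j < a`.

(3) Let `𝒬` be an infinite set of primes different from `p` (for example all of them) and let `𝒢` and
`C` be as in (1) for all `q ∈ 𝒬`. The Alperin–McKay–Navarro conjecture holds for all `p`-blocks with
defect groups in `C` of groups in `𝒢` if and only if for all these blocks `B` and all subgroups `Γ`
of `H_B` the numbers of fixed characters in `Irr₀(B)` and `Irr₀(b)` are congruent modulo the least prime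
`q ∈ 𝒬` which divides none of the orders of the permutations of the two sets given by the elements of
`Γ`.

(4) If `C` is closed under isomorphisms, finite powers and direct products with elementary abelian
`p`-groups, then the conjecture holds for all `p`-blocks with defect groups in `C` if and only if the
congruences in (3) hold for the blocks `B` among them equal to all their Galois conjugates and the
subgroups `Γ` of `H` such that `H/Γ` is a `p`-group (cyclic, if `p` is odd). -/
theorem result (p : ℕ) [Fact p.Prime] (O : ValuationSubring ℂ) (hpO : (p : ℂ) ∈ O.nonunits) :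
    -- (1) and (2)
    (∀ q : ℕ, q.Prime → q ≠ p → ∀ E : ℕ → Prop, (∀ m, E m → ¬ q ∣ m) →
      (∀ m, E m → E (m * (q - 1))) →
      (∀ 𝒢 C : (D : Type) → Group D → Prop, WrClosed q 𝒢 → Closed q C →
        ((∀ X : Dat, X.IsBrauer p O → 𝒢 X.G inferInstance → C X.D inferInstance →
            ∀ Γ : Subgroup (ℂ ≃+* ℂ), InH p X Γ → ActsBoth p E Γ X →
            EquivBij (Γ : Set (ℂ ≃+* ℂ)) (X.ht0 p) (X.ht0' p)) ↔
          ∀ X : Dat, X.IsBrauer p O → 𝒢 X.G inferInstance → C X.D inferInstance →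
            ∀ Γ : Subgroup (ℂ ≃+* ℂ), InH p X Γ → ActsBoth p E Γ X →
            num p Γ X ≡ num' p Γ X [MOD q])) ∧
      (∀ X : Dat, X.IsBrauer p O → X.D ≠ ⊥ → ∀ Γ : Subgroup (ℂ ≃+* ℂ), InH p X Γ →
        ActsBoth p E Γ X → ∃ (Y : ℕ → Dat) (Λ : ℕ → Subgroup (ℂ ≃+* ℂ)), Y 0 = X ∧ Λ 0 = Γ ∧
          (∀ j, (Y j).IsBrauer p O ∧ Nonempty ((Y j).D ≃* (Fin (q ^ j) → X.D)) ∧
            Nonempty ((Y (j + 1)).G ≃* Wreath q (Y j).G) ∧
            InH p (Y j) (Λ j) ∧ ActsBoth p E (Λ j) (Y j)) ∧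
          ∀ a : ℕ, (q : ℤ) ^ a ∣ (num p Γ X : ℤ) - num' p Γ X ↔
            ∀ j < a, num p (Λ j) (Y j) ≡ num' p (Λ j) (Y j) [MOD q])) ∧
    (∀ 𝒬 : Set ℕ, 𝒬.Infinite → (∀ q ∈ 𝒬, q.Prime ∧ q ≠ p) →
      -- (3)
      (∀ 𝒢 C : (D : Type) → Group D → Prop, (∀ q ∈ 𝒬, WrClosed q 𝒢 ∧ Closed q C) →
        ((∀ X : Dat, X.IsBrauer p O → 𝒢 X.G inferInstance → C X.D inferInstance → AMN p X) ↔
          ∀ X : Dat, X.IsBrauer p O → 𝒢 X.G inferInstance → C X.D inferInstance →
            ∀ Γ : Subgroup (ℂ ≃+* ℂ), InH p X Γ → ∀ q : ℕ, IsLeastPrimeTo 𝒬 p q Γ X →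
              num p Γ X ≡ num' p Γ X [MOD q])) ∧
      -- (4)
      ∀ C : (D : Type) → Group D → Prop, ElClosed p C →
        ((∀ X : Dat, X.IsBrauer p O → C X.D inferInstance → AMN p X) ↔
          ∀ X : Dat, X.IsBrauer p O → C X.D inferInstance → (∀ σ : ℂ ≃+* ℂ, gal σ X.B = X.B) →
            ∀ Γ : Subgroup (ℂ ≃+* ℂ), PIndex p X.G Γ → ∀ q : ℕ, IsLeastPrimeTo 𝒬 p q Γ X →
              num p Γ X ≡ num' p Γ X [MOD q])) := by
  have mono : ∀ {E : ℕ → Prop} {Δ Γ : Subgroup (ℂ ≃+* ℂ)} {X : Dat}, Δ ≤ Γ →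
      ActsBoth p E Γ X → ActsBoth p E Δ X := fun hΔ h =>
    ⟨fun σ hσ => h.1 σ (hΔ hσ), fun σ hσ => h.2 σ (hΔ hσ)⟩
  have hamn : ∀ X : Dat, X.IsBrauer p O → (AMN p X ↔ ∀ Γ : Subgroup (ℂ ≃+* ℂ), InH p X Γ →
      num p Γ X = num' p Γ X) := fun X hX => Pool.Agent.N19.RB.amn_iff hpO X hX
  have pass : ∀ {q : ℕ} {𝒢 C : (D : Type) → Group D → Prop} {X Y : Dat}
      {Γ Γ' : Subgroup (ℂ ≃+* ℂ)}, WrClosed q 𝒢 → Closed q C → X.IsBrauer p O →
      Pass p q X Γ Y Γ' → 𝒢 X.G inferInstance → C X.D inferInstance →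
      𝒢 Y.G inferInstance ∧ C Y.D inferInstance := by
    intro q 𝒢 C X Y Γ Γ' h𝒢 hC hX h h1 h2
    have := hX.fin
    obtain ⟨e⟩ := h.grp
    obtain ⟨f⟩ := h.dft
    exact ⟨h𝒢.1 (Wreath q X.G) Y.G ⟨e.symm⟩ (h𝒢.2 X.G h1), hC.1 _ _ ⟨f.symm⟩ (hC.2 X.D h2)⟩
  refine ⟨fun q hq hqp E hE1 hE2 => ⟨fun 𝒢 C h𝒢 hC => ⟨?_, ?_⟩, fun X hX hne Γ hΓ hB => ?_⟩,
    fun 𝒬 h𝒬 hpr => ⟨fun 𝒢 C hC => ⟨?_, ?_⟩, fun C hC => ⟨?_, ?_⟩⟩⟩
  · intro h X hX hGX hCX Γ hΓ hB
    rw [(equiv_iff hpO hX hΓ).mp (h X hX hGX hCX Γ hΓ hB) Γ le_rfl]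
  · intro h X hX hGX hCX Γ hΓ hB
    rw [equiv_iff hpO hX hΓ]
    intro Δ hΔ
    exact eq_gen hq hqp hpO hE1
      (fun X Γ => (𝒢 X.G inferInstance ∧ C X.D inferInstance) ∧ Both p E Γ X) (fun _ _ h => h.2)
      (fun X Γ Y Γ' h0 h1 h2 => ⟨pass h𝒢 hC h0 h1 h2.1.1 h2.1.2, h1.up E hE2 h2.2⟩)
      (fun X hX Γ hΓ hR => h X hX hR.1.1 hR.1.2 Γ hΓ hR.2) X hX Δ (fun σ hσ => hΓ σ (hΔ hσ))
      ⟨⟨hGX, hCX⟩, mono hΔ hB⟩
  · exact exists_tower hq hqp hpO hE1 hE2 hX hne hΓ hB
  · intro h X hX hGX hCX Γ hΓ q _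
    rw [(hamn X hX).mp (h X hX hGX hCX) Γ hΓ]
  · intro h X hX hGX hCX
    rw [hamn X hX]
    intro Γ hΓ
    exact eq_least h𝒬 hpr hpO (fun X _ => 𝒢 X.G inferInstance ∧ C X.D inferInstance)
      (fun q hq X Γ Y Γ' h0 h1 h2 => pass (hC q hq).1 (hC q hq).2 h0 h1 h2.1 h2.2)
      (fun X hX Γ hΓ hR q hq => h X hX hR.1 hR.2 Γ hΓ q hq) X hX Γ hΓ ⟨hGX, hCX⟩
  · intro h X hX hCX hst Γ hΓ q _
    rw [(hamn X hX).mp (h X hX hCX) Γ fun σ hσ => ⟨hΓ.le hσ, hst σ⟩]
  · intro h X hX hCX
    refine Pool.Agent.N19.RB.amn_reduction hpO hC (fun X hX hCX hst L hL => ?_) X hX hCX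
    exact eq_least h𝒬 hpr hpO
      (fun X Γ => C X.D inferInstance ∧ (∀ σ : ℂ ≃+* ℂ, gal σ X.B = X.B) ∧ PIndex p X.G Γ)
      (fun q hq X Γ Y Γ' h0 h1 h2 => by
        obtain ⟨f⟩ := h1.dft
        exact ⟨hC.1.1 _ _ ⟨f.symm⟩ (hC.1.2 X.D q h2.1), h1.stab h2.2.1, h1.pind h2.2.2⟩)
      (fun X hX Γ hΓ hR q hq => h X hX hR.1 hR.2.1 Γ hR.2.2 q hq) X hX L
      (fun σ hσ => ⟨hL.le hσ, hst σ⟩) ⟨hCX, hst, hL⟩

end Pool.Agent.Results.MP_7f1e7e_al.CongruenceModQ
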