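import Pool.Agent.U920.GR.Fxd

/-!
# The Alperin–McKay–Navarro conjecture for automorphisms of `p`-power order: one omitted residue class

`O` is a valuation subring of `ℂ` whose maximal ideal contains the prime `p`; it defines the `p`-blocks of
finite groups, their defect groups and Brauer correspondents (`Pool.Agent.H254R3.IN`). `Dat`
(`Pool/Agent/Q259/BW/Main.lean`) is a group `G` with a subgroup `D` and sets `B`, `b` of functions on `G`
and on `N_G(D)`; `X.IsBrauer p O` says that `G` is finite, `B` is a block of `G` with defect group `D` and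
`b` is its Brauer correspondent; `X.ht0 p`, `X.ht0' p` are `Irr₀(B)`, `Irr₀(b)`. `Fx Γ A` is the set of the
members of `A` fixed by `Γ`, and `EquivBij Γ A A'` says that there is a `Γ`-equivariant bijection `A → A'`.

Proof. Let `Γ` fix the roots of unity of order prime to `p` and act on all roots of unity with
`p`-power order, and let `(x, y)` be the numbers of the characters of height zero in `B` and `b` fixed by
`Γ`. The pairs of the blocks with `D ≠ 1` are closed under products, contain `(p, p)` (the group of order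
`p`; `Γ` fixes the `p`-th roots of unity), and with `(x, y)` they contain `(F(x), F(y))`,
`F(x) = (x^q + (q² - 1) x) / q`, for every prime `q ≠ p` (wreath products with `C_q`; no character is
moved by `Γ` to a different character in its orbit under `C_q`). Hence they take every residue class
modulo `m` if `x ≠ y` for one of them (`Pool.Agent.U920.GR.all_res`). Equivariant bijections exist if and
only if all subgroups of `Γ` have the same numbers of fixed points.
-/

set_option autoImplicit false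

noncomputable section

namespace Pool.Agent.Results.MP_7f1e7e_al.OmittedResidueDecides

open Pool.Agent.Q259.BW (Dat Fx EquivBij)

/-- The number of the characters in `Irr₀(B)` fixed by `Γ`. -/
def num (p : ℕ) (X : Dat) (Γ : Subgroup (ℂ ≃+* ℂ)) : ℕ :=
  Nat.card (Fx (Γ : Set (ℂ ≃+* ℂ)) (X.ht0 p))

/-- The number of the characters in `Irr₀(b)` fixed by `Γ`. -/
def num' (p : ℕ) (X : Dat) (Γ : Subgroup (ℂ ≃+* ℂ)) : ℕ :=
  Nat.card (Fx (Γ : Set (ℂ ≃+* ℂ)) (X.ht0' p))

/-- All `σ ∈ Γ` fix the roots of unity of order prime to `p`, and for every `n ≥ 1` some power of `σ` with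
exponent a power of `p` fixes the `n`-th roots of unity. -/
def PPowerOrder (p : ℕ) (Γ : Subgroup (ℂ ≃+* ℂ)) : Prop :=
  ∀ σ ∈ Γ, (∀ n : ℕ, ¬ p ∣ n → ∀ ξ : ℂ, ξ ^ n = 1 → σ ξ = ξ) ∧
    ∀ n : ℕ, n ≠ 0 → ∃ k : ℕ, ∀ ξ : ℂ, ξ ^ n = 1 → (σ ^ (p ^ k)) ξ = ξ

/-- The class `C` of groups contains the group of order `p` and is closed under isomorphisms and, for
finite groups, under direct products. -/
def ProdClosed (p : ℕ) (C : (D : Type) → Group D → Prop) : Prop :=
  C (Multiplicative (ZMod p)) inferInstance ∧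
    (∀ (D E : Type) [i : Group D] [j : Group E], Nonempty (D ≃* E) → C D i → C E j) ∧
    ∀ (D E : Type) [i : Group D] [j : Group E] [Finite D] [Finite E],
      C D i → C E j → C (D × E) inferInstance

/-- The action of `S` on `G ^ S` by permutation of the factors. -/
def shift (G S : Type) [Group G] [Group S] : S →* MulAut (S → G) :=
  Pool.Agent.K3h3.MK.rAct G S

theorem shift_apply (G S : Type) [Group G] [Group S] (s : S) (g : S → G) (i : S) :
    shift G S s g i = g (s⁻¹ * i) := rfl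

/-- The regular wreath product of `G` with a cyclic group of order `q`. -/
abbrev Wreath (q : ℕ) (G : Type) [Group G] : Type :=
  (Multiplicative (ZMod q) → G) ⋊[shift G (Multiplicative (ZMod q))] Multiplicative (ZMod q)

/-- The class `𝒢` of groups contains the group of order `p` and is closed under isomorphisms and, for
finite groups, under direct products and regular wreath products with cyclic groups of prime order
`q ≠ p`. -/
def WrClosed (p : ℕ) (𝒢 : (G : Type) → Group G → Prop) : Prop :=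
  ProdClosed p 𝒢 ∧ ∀ q : ℕ, q.Prime → q ≠ p → ∀ (G : Type) [i : Group G] [Finite G],
    𝒢 G i → 𝒢 (Wreath q G) inferInstance

section bridge

open Pool.Agent.Q259.BW Pool.Agent.U920.GB Pool.Agent.U920.GR Pool.Agent.N19.RB
open Pool.Agent.K3h3.MK (Wr)

variable {p : ℕ} [hp : Fact p.Prime] {O : ValuationSubring ℂ} {Γ : Subgroup (ℂ ≃+* ℂ)}

theorem pow_closed {C : (D : Type) → Group D → Prop} (hC : ProdClosed p C) {D : Type} [Group D]
    [Finite D] (h : C D inferInstance) (n : ℕ) : C (Fin (n + 1) → D) inferInstance := by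
  induction n with
  | zero =>
    have e0 : Unique (Fin (0 + 1)) := inferInstanceAs (Unique (Fin 1))
    exact hC.2.1 _ _ ⟨(MulEquiv.piUnique (fun _ : Fin (0 + 1) => D)).symm⟩ h
  | succ n ih =>
    exact hC.2.1 _ _ ⟨(Pool.Agent.K3h3.KB.consE D (n + 1)).symm⟩ (hC.2.2 _ _ h ih)

theorem pow_closed' {C : (D : Type) → Group D → Prop} (hC : ProdClosed p C) {D : Type} [Group D]
    [Finite D] (h : C D inferInstance) {n : ℕ} (hn : n ≠ 0) : C (Fin n → D) inferInstance := by
  obtain ⟨k, rfl⟩ := Nat.exists_eq_succ_of_ne_zero hn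
  exact pow_closed hC h k

theorem ne_bot_of_card {X : Dat} (h : Nat.card X.D ≠ 1) : X.D ≠ ⊥ := by
  intro h1
  apply h
  rw [h1, Subgroup.card_bot]

theorem card_ne_one {X : Dat} (h : X.D ≠ ⊥) : Nat.card X.D ≠ 1 :=
  fun h1 => h (Subgroup.eq_bot_of_card_eq X.D h1)

theorem cl_of (hpO : (p : ℂ) ∈ O.nonunits) (hΓ : IsIN p Γ) {𝒢 C : (D : Type) → Group D → Prop}
    (h𝒢 : WrClosed p 𝒢) (hC : ProdClosed p C) :
    Cl p fun a z => ∃ X : Dat, X.IsBrauer p O ∧ X.D ≠ ⊥ ∧
      (𝒢 X.G inferInstance ∧ C X.D inferInstance) ∧ nm p Γ X = a ∧ nm' p Γ X = z := by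
  refine ⟨?_, ?_, ?_⟩
  · obtain ⟨Z, h1, ⟨f⟩, ⟨e⟩, h5, h6⟩ := exists_seedF (p := p) hpO hΓ
    refine ⟨Z, h1, ne_bot_of_card ?_, ⟨h𝒢.1.2.1 _ _ ⟨f.symm⟩ h𝒢.1.1, hC.2.1 _ _ ⟨e.symm⟩ hC.1⟩,
      h5, h6⟩
    rw [Nat.card_congr e.toEquiv]
    have : Nat.card (Multiplicative (ZMod p)) = p := Nat.card_zmod p
    rw [this]
    exact hp.out.one_lt.ne'
  · rintro _ _ _ _ ⟨X, x1, x2, x3, rfl, rfl⟩ ⟨Y, y1, -, y3, rfl, rfl⟩
    obtain ⟨Z, h1, ⟨f⟩, ⟨e⟩, h5, h6⟩ := exists_prodF (Γ := Γ) hpO x1 y1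
    have := x1.fin
    have := y1.fin
    refine ⟨Z, h1, ne_bot_of_card ?_, ⟨h𝒢.1.2.1 _ _ ⟨f.symm⟩ (h𝒢.1.2.2 _ _ x3.1 y3.1),
      hC.2.1 _ _ ⟨e.symm⟩ (hC.2.2 _ _ x3.2 y3.2)⟩, h5, h6⟩
    rw [Nat.card_congr e.toEquiv, Nat.card_prod]
    exact fun h => card_ne_one x2 (Nat.eq_one_of_mul_eq_one_right h)
  · rintro q hq hqp _ _ ⟨X, x1, x2, x3, rfl, rfl⟩
    obtain ⟨Y, h1, h2, ⟨f⟩, ⟨e⟩, n1, n2⟩ := stepF hq hqp hpO hΓ x1 x2
    have := x1.fin
    exact ⟨_, _, ⟨Y, h1, h2, ⟨h𝒢.1.2.1 (Wreath q X.G) Y.G ⟨e.symm⟩ (h𝒢.2 q hq hqp X.G x3.1),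
      hC.2.1 _ _ ⟨f.symm⟩ (pow_closed' hC x3.2 hq.ne_zero)⟩, rfl, rfl⟩, n1, n2⟩

theorem dich (hpO : (p : ℂ) ∈ O.nonunits) (hΓ : IsIN p Γ) {𝒢 C : (D : Type) → Group D → Prop}
    (h𝒢 : WrClosed p 𝒢) (hC : ProdClosed p C)
    {X : Dat} (hX : X.IsBrauer p O) (hG : 𝒢 X.G inferInstance) (hD : C X.D inferInstance)
    (hne : num p X Γ ≠ num' p X Γ) {m : ℕ} (hm0 : m ≠ 0) (hm : ¬ p ∣ m) (r : ℤ) :
    ∃ Y : Dat, Y.IsBrauer p O ∧ 𝒢 Y.G inferInstance ∧ C Y.D inferInstance ∧
      (m : ℤ) ∣ ((num p Y Γ : ℤ) - num' p Y Γ) - r := by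
  have hD0 : X.D ≠ ⊥ := fun h => hne (num_bot hX h _)
  obtain ⟨_, _, ⟨Y, h1, -, h3, rfl, rfl⟩, h4⟩ :=
    all_res hp.out (cl_of hpO hΓ h𝒢 hC) hm hm0 ⟨X, hX, hD0, ⟨hG, hD⟩, rfl, rfl⟩ hne r
  exact ⟨Y, h1, h3.1, h3.2, h4⟩

theorem bij_iff' (hpO : (p : ℂ) ∈ O.nonunits) (hΓ : IsIN p Γ) {X : Dat} (hX : X.IsBrauer p O) :
    EquivBij (Γ : Set (ℂ ≃+* ℂ)) (X.ht0 p) (X.ht0' p) ↔
      ∀ Δ : Subgroup (ℂ ≃+* ℂ), Δ ≤ Γ → num p X Δ = num' p X Δ := by
  have := hX.fin
  constructor
  · intro h Δ hΔ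
    exact num_of_bij h hΔ
  · intro h
    obtain ⟨s1, s2⟩ := hΓ.stable hpO hX
    exact bij_of_num (finite_of_irr (ht0_irr hX)) (finite_of_irr (ht0'_irr hX)) s1 s2 h

/-- a prime different from `p` -/
theorem other_prime (p : ℕ) : ∃ q : ℕ, q.Prime ∧ q ≠ p := by
  by_cases h : p = 2
  · exact ⟨3, Nat.prime_three, by omega⟩
  · exact ⟨2, Nat.prime_two, Ne.symm h⟩

end bridge

/-- **The Alperin–McKay–Navarro conjecture for automorphisms of `p`-power order.** Let `p` be any prime,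
and `Γ` a group of automorphisms of `ℂ` which fix the roots of unity of order prime to `p` and act on
all roots of unity with `p`-power order. Let `𝒢` be a class of groups containing the group of order `p`,
closed under isomorphisms and, for finite groups, under direct products and regular wreath products
with the groups of prime order `q ≠ p`, and `C` a class of groups containing the group of order `p`, closed
under isomorphisms and direct products. Consider the `p`-blocks `B`, with defect group in `C`, of finite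
groups in `𝒢`, and their Brauer correspondents `b`.

(1) Either `Γ` fixes the same numbers of characters of height zero in `B` and in `b` for all of these
blocks, or the difference of these numbers takes values in every residue class modulo every positive
integer `m` prime to `p`.

(2) There are `Γ`-equivariant bijections `Irr₀(B) → Irr₀(b)` for all these blocks if and only if for every
subgroup `Δ` of `Γ` there is at least one residue class modulo some `m` prime to `p` which does not contain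
the difference of the numbers of the characters in `Irr₀(B)` and `Irr₀(b)` fixed by `Δ` for any of the
blocks. -/
theorem result (p : ℕ) [Fact p.Prime] (O : ValuationSubring ℂ) (hpO : (p : ℂ) ∈ O.nonunits)
    (Γ : Subgroup (ℂ ≃+* ℂ)) (hΓ : PPowerOrder p Γ) (𝒢 C : (D : Type) → Group D → Prop)
    (h𝒢 : WrClosed p 𝒢) (hC : ProdClosed p C) :
    -- (1)
    ((∀ X : Dat, X.IsBrauer p O → 𝒢 X.G inferInstance → C X.D inferInstance →
        num p X Γ = num' p X Γ) ∨
      ∀ m : ℕ, m ≠ 0 → ¬ p ∣ m → ∀ r : ℤ, ∃ X : Dat, X.IsBrauer p O ∧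
        𝒢 X.G inferInstance ∧ C X.D inferInstance ∧
        (m : ℤ) ∣ ((num p X Γ : ℤ) - num' p X Γ) - r) ∧
    -- (2)
    ((∀ X : Dat, X.IsBrauer p O → 𝒢 X.G inferInstance → C X.D inferInstance →
        EquivBij (Γ : Set (ℂ ≃+* ℂ)) (X.ht0 p) (X.ht0' p)) ↔
      ∀ Δ : Subgroup (ℂ ≃+* ℂ), Δ ≤ Γ → ∃ m : ℕ, m ≠ 0 ∧ ¬ p ∣ m ∧ ∃ r : ℤ,
        ∀ X : Dat, X.IsBrauer p O → 𝒢 X.G inferInstance → C X.D inferInstance →
          ¬ (m : ℤ) ∣ ((num p X Δ : ℤ) - num' p X Δ) - r) := by
  classical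
  have hp : p.Prime := Fact.out
  have hΓ' : Pool.Agent.U920.GR.IsIN p Γ := hΓ
  refine ⟨?_, ?_, ?_⟩
  · by_cases hall : ∀ X : Dat, X.IsBrauer p O → 𝒢 X.G inferInstance → C X.D inferInstance →
      num p X Γ = num' p X Γ
    · exact Or.inl hall
    right
    push Not at hall
    obtain ⟨X, hX, hG, hD, hne⟩ := hall
    intro m hm0 hm r
    exact dich hpO hΓ' h𝒢 hC hX hG hD hne hm0 hm r
  · intro h Δ hΔ
    obtain ⟨q, hq, hqp⟩ := other_prime p
    have hpq : ¬ p ∣ q := fun h => hqp ((Nat.prime_dvd_prime_iff_eq hp hq).1 h).symm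
    refine ⟨q, hq.ne_zero, hpq, 1, fun X hX hG hD h1 => ?_⟩
    have h2 := (bij_iff' hpO hΓ' hX).mp (h X hX hG hD) Δ hΔ
    rw [h2, sub_self, zero_sub, dvd_neg] at h1
    exact hq.one_lt.ne' (Nat.dvd_one.1 (by exact_mod_cast h1))
  · intro h X hX hG hD
    rw [bij_iff' hpO hΓ' hX]
    intro Δ hΔ
    by_contra hne
    obtain ⟨m, hm0, hm, r, h1⟩ := h Δ hΔ
    obtain ⟨Y, y1, y2, y3, y4⟩ := dich hpO (hΓ'.mono hΔ) h𝒢 hC hX hG hD hne hm0 hm r
    exact h1 Y y1 y2 y3 y4

end Pool.Agent.Results.MP_7f1e7e_al.OmittedResidueDecides
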