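import Pool.Agent.U518.GR.Bst

/-!
# The Alperin–McKay–Navarro conjecture: subpolynomial error factors suffice

`O` is a valuation subring of `ℂ` whose maximal ideal contains the prime `p` (`p = 2` is allowed); it
defines the `p`-blocks of finite groups, their defect groups and Brauer correspondents
(`Pool.Agent.H254R3.IN`). `Dat` (`Pool/Agent/Q259/BW/Main.lean`) is a group `G` with a subgroup `D` and
sets `B`, `b` of functions on `G` and on `N_G(D)`; `X.IsBrauer p O` says that `G` is finite, `B` is a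
block of `G` with defect group `D` and `b` is its Brauer correspondent; `X.ht0 p`, `X.ht0' p` are
`Irr₀(B)`, `Irr₀(b)`. `HG p G` is Navarro's group as a group of automorphisms of `ℂ` and `AMN p X` the
assertion of the conjecture for `B` (`Pool/Agent/N19/RB/DefB.lean`), `gal σ B` is the Galois conjugate
of `B`, and `Fx Γ A` is the set of the members of `A` fixed by `Γ`.

Proof. Let `q ≠ p` be a prime, `B` a block with defect group `D ≠ 1`, and `Γ` a group of field
automorphisms such that the orders of its elements on `Irr₀(B)` and on `Irr₀(b)` are prime to `q`. For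
the block of `G ≀ C_q` above `B ⊗ ⋯ ⊗ B` and the group of the extensions of the elements of `Γ` the
numbers `x`, `x'` of fixed characters satisfy `q x' + x = x ^ q + q c x` on both sides, `1 ≤ c ≤ q`
(files `Pool/Agent/U920/GB`). Two different orbits of this recursion separate at an exponential rate: the
quotient of the larger number by the smaller one is larger than any multiple of `|G_j| ^ ε` for the
iterated wreath products `G_j` and a suitable `ε > 0`. If the smaller number is zero there is nothing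
to prove.
-/

set_option autoImplicit false

noncomputable section

namespace Pool.Agent.Results.MP_7f1e7e_al.SubpolynomialErrorSuffices

open Pool.Agent.Q259.BW (Dat Fx)
open Pool.Agent.Q288.MB (gal)
open Pool.Agent.N19.RB (HG AMN PIndex ElClosed)

/-- `Γ` is a subgroup of Navarro's group `H_B`. -/
def InH (p : ℕ) (X : Dat) (Γ : Subgroup (ℂ ≃+* ℂ)) : Prop :=
  ∀ σ ∈ Γ, σ ∈ HG p X.G ∧ gal σ X.B = X.B

/-- The number of the characters in `Irr₀(B)` fixed by `Γ`. -/
def num (p : ℕ) (Γ : Subgroup (ℂ ≃+* ℂ)) (X : Dat) : ℕ :=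
  Nat.card (Fx (Γ : Set (ℂ ≃+* ℂ)) (X.ht0 p))

/-- The number of the characters in `Irr₀(b)` fixed by `Γ`. -/
def num' (p : ℕ) (Γ : Subgroup (ℂ ≃+* ℂ)) (X : Dat) : ℕ :=
  Nat.card (Fx (Γ : Set (ℂ ≃+* ℂ)) (X.ht0' p))

/-- For every `σ ∈ Γ` there is an exponent `m` with the property `E` such that `σ ^ m` fixes all
characters in `A`. -/
def Acts (E : ℕ → Prop) (Γ : Subgroup (ℂ ≃+* ℂ)) {G : Type} (A : Set (G → ℂ)) : Prop :=
  ∀ σ ∈ Γ, ∃ m : ℕ, E m ∧ ∀ χ ∈ A, ∀ g, (σ ^ m) (χ g) = χ g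

/-- The same for `Irr₀(B)` and for `Irr₀(b)`. -/
def ActsBoth (p : ℕ) (E : ℕ → Prop) (Γ : Subgroup (ℂ ≃+* ℂ)) (X : Dat) : Prop :=
  Acts E Γ (X.ht0 p) ∧ Acts E Γ (X.ht0' p)

/-- The class `C` of groups is closed under isomorphisms and `D ↦ D ^ n`. -/
def Closed (n : ℕ) (C : (D : Type) → Group D → Prop) : Prop :=
  (∀ (D E : Type) [i : Group D] [j : Group E], Nonempty (D ≃* E) → C D i → C E j) ∧
    ∀ (D : Type) [i : Group D], C D i → C (Fin n → D) inferInstance

/-- The action of `S` on `G ^ S` by permutation of the factors. -/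
def shift (G S : Type) [Group G] [Group S] : S →* MulAut (S → G) :=
  Pool.Agent.K3h3.MK.rAct G S

theorem shift_apply (G S : Type) [Group G] [Group S] (s : S) (g : S → G) (i : S) :
    shift G S s g i = g (s⁻¹ * i) := rfl

/-- The regular wreath product of `G` with a cyclic group of order `q`. -/
abbrev Wreath (q : ℕ) (G : Type) [Group G] : Type :=
  (Multiplicative (ZMod q) → G) ⋊[shift G (Multiplicative (ZMod q))] Multiplicative (ZMod q)

/-- The class `𝒢` of groups is closed under isomorphisms and, for finite groups, under regular wreath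
products with cyclic groups of order `q`. -/
def WrClosed (q : ℕ) (𝒢 : (G : Type) → Group G → Prop) : Prop :=
  (∀ (G H : Type) [i : Group G] [j : Group H], Nonempty (G ≃* H) → 𝒢 G i → 𝒢 H j) ∧
    ∀ (G : Type) [i : Group G] [Finite G], 𝒢 G i → 𝒢 (Wreath q G) inferInstance

/-- A property of a block (with Brauer correspondent) and a group of field automorphisms. -/
abbrev Prp : Type 1 := Dat → Subgroup (ℂ ≃+* ℂ) → Prop

/-- `Γ` fixes at most as many characters in `Irr₀(B)` as in `Irr₀(b)`, for all blocks `B` and subgroups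
`Γ` of `H_B` with the property `R`. -/
def LE (p : ℕ) (O : ValuationSubring ℂ) (R : Prp) : Prop :=
  ∀ X : Dat, X.IsBrauer p O → ∀ Γ : Subgroup (ℂ ≃+* ℂ), InH p X Γ → R X Γ →
    num p Γ X ≤ num' p Γ X

/-- The same in the other direction. -/
def GE (p : ℕ) (O : ValuationSubring ℂ) (R : Prp) : Prop :=
  ∀ X : Dat, X.IsBrauer p O → ∀ Γ : Subgroup (ℂ ≃+* ℂ), InH p X Γ → R X Γ →
    num' p Γ X ≤ num p Γ X

/-- For every `ε > 0` there is a constant `K` such that `Γ` fixes at most `K |G| ^ ε` times as many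
characters in `Irr₀(B)` as in `Irr₀(b)`, for all blocks `B` of finite groups `G` and subgroups `Γ` of
`H_B` with the property `R`. -/
def WeakLE (p : ℕ) (O : ValuationSubring ℂ) (R : Prp) : Prop :=
  ∀ ε : ℝ, 0 < ε → ∃ K : ℝ, ∀ X : Dat, X.IsBrauer p O → ∀ Γ : Subgroup (ℂ ≃+* ℂ), InH p X Γ →
    R X Γ → (num p Γ X : ℝ) ≤ K * (Nat.card X.G : ℝ) ^ ε * (num' p Γ X : ℝ)

/-- The same in the other direction. -/
def WeakGE (p : ℕ) (O : ValuationSubring ℂ) (R : Prp) : Prop :=
  ∀ ε : ℝ, 0 < ε → ∃ K : ℝ, ∀ X : Dat, X.IsBrauer p O → ∀ Γ : Subgroup (ℂ ≃+* ℂ), InH p X Γ →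
    R X Γ → (num' p Γ X : ℝ) ≤ K * (Nat.card X.G : ℝ) ^ ε * (num p Γ X : ℝ)

open Pool.Agent.U920.GB in
/-- **The Alperin–McKay–Navarro conjecture: subpolynomial error factors suffice, in each direction.**
Let `p` be a prime. Weakly at most means: at most `K |G| ^ ε` times as many, for every `ε > 0` with a
constant `K` depending only on `ε` (and `p`, the classes and `E`).

(1) Let `q ≠ p` be one prime, `E` a set of exponents prime to `q` such that `(q - 1) m` is in `E` for all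
`m` in `E` (for example all numbers prime to `q`), `𝒢` a class of groups closed under isomorphisms and
under wreath products with cyclic groups of order `q` and `C` a class of groups closed under
isomorphisms and `D ↦ D ^ q`. Consider all pairs of a `p`-block `B`, with defect group in `C`, of a
finite group in `𝒢` and a subgroup `Γ` of `H_B` such that every `σ ∈ Γ` has powers with exponents in `E`
fixing all characters in `Irr₀(B)` and in `Irr₀(b)` (for example `Γ = 1`). `Γ` fixes at most as many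
characters in `Irr₀(B)` as in `Irr₀(b)` for all these pairs, if and only if it fixes weakly at most as
many for these pairs; the same in the other direction.

(2) Let `𝒬` be an infinite set of primes different from `p` and let `𝒢` and `C` be as in (1) for all
`q ∈ 𝒬` (for example the class of all groups, and that of all abelian groups). `Γ` fixes at most as many
characters in `Irr₀(B)` as in `Irr₀(b)` for all `p`-blocks `B` with defect groups in `C` of finite groups
in `𝒢` and all subgroups `Γ` of `H_B`, if and only if it fixes weakly at most as many; the same in the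
other direction; and the Alperin–McKay–Navarro conjecture holds for all these blocks if and only if both
weak estimates hold.

(3) If `C` is closed under isomorphisms, finite powers and direct products with elementary abelian
`p`-groups, then the conjecture holds for all `p`-blocks with defect groups in `C` if and only if both
weak estimates hold for the blocks `B` among them equal to all their Galois conjugates and the subgroups
`Γ` of `H` such that `H/Γ` is a `p`-group (cyclic, if `p` is odd). -/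
theorem result (p : ℕ) [Fact p.Prime] (O : ValuationSubring ℂ) (hpO : (p : ℂ) ∈ O.nonunits) :
    -- (1)
    (∀ q : ℕ, q.Prime → q ≠ p → ∀ E : ℕ → Prop, (∀ m, E m → ¬ q ∣ m) →
      (∀ m, E m → E (m * (q - 1))) →
      ∀ 𝒢 C : (D : Type) → Group D → Prop, WrClosed q 𝒢 → Closed q C →
        (LE p O (fun X Γ => (𝒢 X.G inferInstance ∧ C X.D inferInstance) ∧ ActsBoth p E Γ X) ↔
          WeakLE p O
            (fun X Γ => (𝒢 X.G inferInstance ∧ C X.D inferInstance) ∧ ActsBoth p E Γ X)) ∧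
        (GE p O (fun X Γ => (𝒢 X.G inferInstance ∧ C X.D inferInstance) ∧ ActsBoth p E Γ X) ↔
          WeakGE p O
            (fun X Γ => (𝒢 X.G inferInstance ∧ C X.D inferInstance) ∧ ActsBoth p E Γ X))) ∧
    -- (2)
    (∀ 𝒬 : Set ℕ, 𝒬.Infinite → (∀ q ∈ 𝒬, q.Prime ∧ q ≠ p) →
      ∀ 𝒢 C : (D : Type) → Group D → Prop, (∀ q ∈ 𝒬, WrClosed q 𝒢 ∧ Closed q C) →
        (LE p O (fun X _ => 𝒢 X.G inferInstance ∧ C X.D inferInstance) ↔
          WeakLE p O (fun X _ => 𝒢 X.G inferInstance ∧ C X.D inferInstance)) ∧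
        (GE p O (fun X _ => 𝒢 X.G inferInstance ∧ C X.D inferInstance) ↔
          WeakGE p O (fun X _ => 𝒢 X.G inferInstance ∧ C X.D inferInstance)) ∧
        ((∀ X : Dat, X.IsBrauer p O → 𝒢 X.G inferInstance → C X.D inferInstance → AMN p X) ↔
          WeakLE p O (fun X _ => 𝒢 X.G inferInstance ∧ C X.D inferInstance) ∧
            WeakGE p O (fun X _ => 𝒢 X.G inferInstance ∧ C X.D inferInstance))) ∧
    -- (3)
    ∀ C : (D : Type) → Group D → Prop, ElClosed p C →
      ((∀ X : Dat, X.IsBrauer p O → C X.D inferInstance → AMN p X) ↔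
        WeakLE p O (fun X Γ => C X.D inferInstance ∧ (∀ σ : ℂ ≃+* ℂ, gal σ X.B = X.B) ∧
          PIndex p X.G Γ) ∧
        WeakGE p O (fun X Γ => C X.D inferInstance ∧ (∀ σ : ℂ ≃+* ℂ, gal σ X.B = X.B) ∧
          PIndex p X.G Γ)) := by
  have pass : ∀ {q : ℕ} {𝒢 C : (D : Type) → Group D → Prop} {X Y : Dat}
      {Γ Γ' : Subgroup (ℂ ≃+* ℂ)}, WrClosed q 𝒢 → Closed q C → X.IsBrauer p O →
      Pass p q X Γ Y Γ' → 𝒢 X.G inferInstance → C X.D inferInstance →
      𝒢 Y.G inferInstance ∧ C Y.D inferInstance := by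
    intro q 𝒢 C X Y Γ Γ' h𝒢 hC hX h h1 h2
    have := hX.fin
    obtain ⟨e⟩ := h.grp
    obtain ⟨f⟩ := h.dft
    exact ⟨h𝒢.1 (Wreath q X.G) Y.G ⟨e.symm⟩ (h𝒢.2 X.G h1), hC.1 _ _ ⟨f.symm⟩ (hC.2 X.D h2)⟩
  have hamn : ∀ X : Dat, X.IsBrauer p O → (AMN p X ↔ ∀ Γ : Subgroup (ℂ ≃+* ℂ), InH p X Γ →
      num p Γ X = num' p Γ X) := fun X hX => Pool.Agent.N19.RB.amn_iff hpO X hX
  have all : ∀ 𝒬 : Set ℕ, 𝒬.Infinite → (∀ q ∈ 𝒬, q.Prime ∧ q ≠ p) → ∀ R : Prp,
      (∀ q ∈ 𝒬, ∀ X Γ Y Γ', X.IsBrauer p O → Pass p q X Γ Y Γ' → R X Γ → R Y Γ') →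
      (LE p O R ↔ WeakLE p O R) ∧ (GE p O R ↔ WeakGE p O R) := by
    intro 𝒬 h𝒬 hpr R hR
    exact ⟨⟨fun h => Pool.Agent.U518.GR.wk_of_le (b := true) h,
        fun h X hX Γ hΓ hRX => Pool.Agent.U518.GR.le_all h𝒬 hpr hpO R hR true h hX hΓ hRX⟩,
      ⟨fun h => Pool.Agent.U518.GR.wk_of_le (b := false) h,
        fun h X hX Γ hΓ hRX => Pool.Agent.U518.GR.le_all h𝒬 hpr hpO R hR false h hX hΓ hRX⟩⟩
  refine ⟨fun q hq hqp E hE1 hE2 𝒢 C h𝒢 hC => ?_, fun 𝒬 h𝒬 hpr 𝒢 C hC => ?_, fun C hC => ?_⟩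
  · have hR2 : ∀ X Γ Y Γ', X.IsBrauer p O → Pass p q X Γ Y Γ' →
        ((𝒢 X.G inferInstance ∧ C X.D inferInstance) ∧ ActsBoth p E Γ X) →
        ((𝒢 Y.G inferInstance ∧ C Y.D inferInstance) ∧ ActsBoth p E Γ' Y) :=
      fun X Γ Y Γ' h0 h1 h2 => ⟨pass h𝒢 hC h0 h1 h2.1.1 h2.1.2, h1.up E hE2 h2.2⟩
    exact ⟨⟨fun h => Pool.Agent.U518.GR.wk_of_le (b := true) h,
        fun h X hX Γ hΓ hRX => Pool.Agent.U518.GR.le_gen hq hqp hpO hE1
          (fun X Γ => (𝒢 X.G inferInstance ∧ C X.D inferInstance) ∧ ActsBoth p E Γ X)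
          (fun _ _ h => h.2) hR2 true h hX hΓ hRX⟩,
      ⟨fun h => Pool.Agent.U518.GR.wk_of_le (b := false) h,
        fun h X hX Γ hΓ hRX => Pool.Agent.U518.GR.le_gen hq hqp hpO hE1
          (fun X Γ => (𝒢 X.G inferInstance ∧ C X.D inferInstance) ∧ ActsBoth p E Γ X)
          (fun _ _ h => h.2) hR2 false h hX hΓ hRX⟩⟩
  · obtain ⟨h1, h2⟩ := all 𝒬 h𝒬 hpr (fun X _ => 𝒢 X.G inferInstance ∧ C X.D inferInstance)
      (fun q hq X Γ Y Γ' h0 h1 h2 => pass (hC q hq).1 (hC q hq).2 h0 h1 h2.1 h2.2)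
    refine ⟨h1, h2, fun h => ?_, fun h X hX hGX hCX => ?_⟩
    · rw [← h1, ← h2]
      exact ⟨fun X hX Γ hΓ hR => ((hamn X hX).mp (h X hX hR.1 hR.2) Γ hΓ).le,
        fun X hX Γ hΓ hR => ((hamn X hX).mp (h X hX hR.1 hR.2) Γ hΓ).ge⟩
    · rw [hamn X hX]
      intro Γ hΓ
      exact le_antisymm (h1.2 h.1 X hX Γ hΓ ⟨hGX, hCX⟩) (h2.2 h.2 X hX Γ hΓ ⟨hGX, hCX⟩)
  · have hinf : {q : ℕ | q.Prime ∧ q ≠ p}.Infinite := by
      have := Nat.infinite_setOfPred_prime.sdiff (Set.finite_singleton p)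
      refine this.mono ?_
      rintro q ⟨h1, h2⟩
      exact ⟨h1, h2⟩
    obtain ⟨h1, h2⟩ := all {q : ℕ | q.Prime ∧ q ≠ p} hinf (fun q hq => hq)
      (fun X Γ => C X.D inferInstance ∧ (∀ σ : ℂ ≃+* ℂ, gal σ X.B = X.B) ∧ PIndex p X.G Γ)
      (fun q hq X Γ Y Γ' h0 h1 h2 => by
        obtain ⟨f⟩ := h1.dft
        exact ⟨hC.1.1 _ _ ⟨f.symm⟩ (hC.1.2 X.D q h2.1), h1.stab h2.2.1, h1.pind h2.2.2⟩)
    refine ⟨fun h => ?_, fun h X hX hCX => ?_⟩
    · rw [← h1, ← h2]
      exact ⟨fun X hX Γ hΓ hR => ((hamn X hX).mp (h X hX hR.1) Γ hΓ).le,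
        fun X hX Γ hΓ hR => ((hamn X hX).mp (h X hX hR.1) Γ hΓ).ge⟩
    · refine Pool.Agent.N19.RB.amn_reduction hpO hC (fun X hX hCX hst L hL => ?_) X hX hCX
      exact le_antisymm (h1.2 h.1 X hX L (fun σ hσ => ⟨hL.le hσ, hst σ⟩) ⟨hCX, hst, hL⟩)
        (h2.2 h.2 X hX L (fun σ hσ => ⟨hL.le hσ, hst σ⟩) ⟨hCX, hst, hL⟩)

end Pool.Agent.Results.MP_7f1e7e_al.SubpolynomialErrorSuffices
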